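import Mathlib

/-!
# Locally skew labelled posets (helper92; MP_49bc13_co)

`P` a partial order with a labelling `ω : P → L` in a linear order.
A cover `x ⋖ y` is strict (`SCov`) when `ω y < ω x`, weak (`WCov`) when `ω x < ω y`.
Picture: a strict cover is a step South, a weak cover a step East.
-/

set_option autoImplicit false

namespace Pool.Agent.SPE

section
variable {P L : Type*} [PartialOrder P] [LinearOrder L]

/-- strict cover: `y` is the South neighbour of `x`. -/
def SCov (ω : P → L) (x y : P) : Prop := x ⋖ y ∧ ω y < ω x

/-- weak cover: `y` is the East neighbour of `x`. -/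
def WCov (ω : P → L) (x y : P) : Prop := x ⋖ y ∧ ω x < ω y

/-- Locally skew labelled poset. -/
structure LocSkew (ω : P → L) : Prop where
  /-- at most one strict lower cover (North neighbour) -/
  s_down : ∀ x x' y : P, SCov ω x y → SCov ω x' y → x = x'
  /-- at most one weak lower cover (West neighbour) -/
  w_down : ∀ x x' y : P, WCov ω x y → WCov ω x' y → x = x'
  /-- at most one strict upper cover (South neighbour) -/
  s_up : ∀ x y y' : P, SCov ω x y → SCov ω x y' → y = y'
  /-- at most one weak upper cover (East neighbour) -/
  w_up : ∀ x y y' : P, WCov ω x y → WCov ω x y' → y = y'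
  /-- corner for a weak cover followed by a strict cover -/
  ws : ∀ x b y : P, WCov ω x b → SCov ω b y → ∃ c, SCov ω x c ∧ WCov ω c y
  /-- corner for a strict cover followed by a weak cover -/
  sw : ∀ x b y : P, SCov ω x b → WCov ω b y → ∃ c, WCov ω x c ∧ SCov ω c y

end

end Pool.Agent.SPE
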