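import Mathlib
import Pool.Agent.Lib_helper92.SPE.Defs

/-!
# Row coordinates of a locally skew labelled poset (helper92; MP_49bc13_co)
-/

set_option autoImplicit false

namespace Pool.Agent.SPE

open Relation

section
variable {P L : Type*} [PartialOrder P] [LinearOrder L] {ω : P → L}

theorem WCov.lt {x y : P} (h : WCov ω x y) : x < y := h.1.lt
theorem SCov.lt {x y : P} (h : SCov ω x y) : x < y := h.1.lt

theorem wchain_le {x y : P} (h : ReflTransGen (WCov ω) x y) : x ≤ y := by
  induction h with
  | refl => exact le_rfl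
  | tail _ h ih => exact ih.trans h.lt.le

omit [PartialOrder P] in
/-- well-foundedness (label increasing) in a finite poset -/
theorem wf_up [Finite P] (ω : P → L) : WellFounded (fun x y : P => ω y < ω x) := by
  have : IsTrans P (fun x y : P => ω y < ω x) := ⟨fun a b c h1 h2 => lt_trans h2 h1⟩
  have : Std.Irrefl (fun x y : P => ω y < ω x) := ⟨fun a h => lt_irrefl _ h⟩
  exact Finite.wellFounded_of_trans_of_irrefl _

/-- recursion along East and North steps (label increasing) -/
theorem exists_rec [Finite P] (ω : P → L) {X : Type*} (F : X → X) (base : P → X)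
    (hs : LocSkew ω) :
    ∃ g : P → X, (∀ x y, WCov ω x y → g x = g y) ∧
      (∀ x y, SCov ω x y → g y = F (g x)) ∧
      (∀ x, (∀ y, ¬ WCov ω x y) → (∀ y, ¬ SCov ω y x) → g x = base x) := by
  classical
  let g : P → X := (wf_up ω).fix (fun x ih =>
    if h : ∃ y, WCov ω x y then ih h.choose h.choose_spec.2
    else if h' : ∃ y, SCov ω y x then F (ih h'.choose h'.choose_spec.2)
    else base x)
  have hg : ∀ x, g x = if h : ∃ y, WCov ω x y then g h.choose
      else if h' : ∃ y, SCov ω y x then F (g h'.choose) else base x := by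
    intro x
    exact (wf_up ω).fix_eq _ x
  have hW : ∀ x y, WCov ω x y → g x = g y := by
    intro x y hxy
    rw [hg x]
    have h : ∃ y, WCov ω x y := ⟨y, hxy⟩
    rw [dif_pos h]
    rw [hs.w_up x h.choose y h.choose_spec hxy]
  refine ⟨g, hW, ?_, ?_⟩
  · -- by induction on y
    have key : ∀ y x, SCov ω x y → g y = F (g x) := by
      intro y
      induction y using (wf_up ω).induction with
      | _ y ih =>
        intro x hxy
        by_cases h : ∃ z, WCov ω y z
        · obtain ⟨z, hz⟩ := h
          obtain ⟨c, hc1, hc2⟩ := hs.sw x y z hxy hz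
          rw [hW y z hz, ih z hz.2 c hc2, hW x c hc1]
        · have h' : ∃ z, SCov ω z y := ⟨x, hxy⟩
          rw [hg y, dif_neg h, dif_pos h', hs.s_down h'.choose x y h'.choose_spec hxy]
    exact fun x y h => key y x h
  · intro x h1 h2
    rw [hg x, dif_neg (by simpa using h1), dif_neg (by simpa using h2)]

/-- a chain of weak covers can be continued to an element without East neighbour -/
theorem exists_right [Finite P] (ω : P → L) (x : P) :
    ∃ x', ReflTransGen (WCov ω) x x' ∧ ∀ y, ¬ WCov ω x' y := by
  induction x using (wf_up ω).induction with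
  | _ x ih =>
    by_cases h : ∃ y, WCov ω x y
    · obtain ⟨y, hy⟩ := h
      obtain ⟨x', h1, h2⟩ := ih y hy.2
      exact ⟨x', ReflTransGen.head hy h1, h2⟩
    · exact ⟨x, ReflTransGen.refl, by simpa using h⟩

/-- two weak chains with the same end are comparable -/
theorem wchain_total (hs : LocSkew ω) {x y z : P} (h1 : ReflTransGen (WCov ω) x z)
    (h2 : ReflTransGen (WCov ω) y z) :
    ReflTransGen (WCov ω) x y ∨ ReflTransGen (WCov ω) y x := by
  have hr : Relator.RightUnique (Function.swap (WCov ω)) := by
    intro a b c hab hac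
    exact hs.w_down b c a hab hac
  have h1' : ReflTransGen (Function.swap (WCov ω)) z x := reflTransGen_swap.mpr h1
  have h2' : ReflTransGen (Function.swap (WCov ω)) z y := reflTransGen_swap.mpr h2
  rcases ReflTransGen.total_of_right_unique hr h1' h2' with h | h
  · right; exact reflTransGen_swap.mp h
  · left; exact reflTransGen_swap.mp h

/-- shifting a weak chain to the South -/
theorem wchain_shift (hs : LocSkew ω) {u v y : P} (h : ReflTransGen (WCov ω) u v)
    (hv : SCov ω v y) : ∃ z, SCov ω u z ∧ ReflTransGen (WCov ω) z y := by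
  induction h using ReflTransGen.head_induction_on with
  | refl => exact ⟨y, hv, ReflTransGen.refl⟩
  | head h1 _ ih =>
    obtain ⟨z, hz, hzy⟩ := ih
    obtain ⟨c, hc1, hc2⟩ := hs.ws _ _ _ h1 hz
    exact ⟨c, hc1, ReflTransGen.head hc2 hzy⟩

end

/-- Row data: `r` is the row index, `q` a component index. -/
structure RowData {P L : Type*} [PartialOrder P] [LinearOrder L] (ω : P → L) (r : P → ℕ)
    (q : P → P) : Prop where
  w_r : ∀ x y, WCov ω x y → r x = r y
  w_q : ∀ x y, WCov ω x y → q x = q y
  s_r : ∀ x y, SCov ω x y → r y = r x + 1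
  s_q : ∀ x y, SCov ω x y → q y = q x
  e_r : ∀ x, (∀ y, ¬ WCov ω x y) → (∀ y, ¬ SCov ω y x) → r x = 0
  e_q : ∀ x, (∀ y, ¬ WCov ω x y) → (∀ y, ¬ SCov ω y x) → q x = x

section
variable {P L : Type*} [PartialOrder P] [LinearOrder L] {ω : P → L}

theorem exists_rowData [Finite P] (hs : LocSkew ω) : ∃ r q, RowData ω r q := by
  obtain ⟨g, h1, h2, h3⟩ := exists_rec ω (fun p : ℕ × P => (p.1 + 1, p.2))
    (fun x => ((0 : ℕ), x)) hs
  refine ⟨fun x => (g x).1, fun x => (g x).2, ?_, ?_, ?_, ?_, ?_, ?_⟩
  · intro x y h; simp [h1 x y h]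
  · intro x y h; simp [h1 x y h]
  · intro x y h; simp [h2 x y h]
  · intro x y h; simp [h2 x y h]
  · intro x h h'; simp [h3 x h h']
  · intro x h h'; simp [h3 x h h']

theorem RowData.const [Finite P] {r : P → ℕ} {q : P → P} (hd : RowData ω r q) {X : Type*}
    (h : P → X) (hw : ∀ x y, WCov ω x y → h x = h y) (hss : ∀ x y, SCov ω x y → h x = h y)
    (x : P) : h (q x) = h x := by
  induction x using (wf_up ω).induction with
  | _ x ih =>
    by_cases h1 : ∃ y, WCov ω x y
    · obtain ⟨y, hy⟩ := h1
      rw [hd.w_q x y hy, ih y hy.2, hw x y hy]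
    · by_cases h2 : ∃ y, SCov ω y x
      · obtain ⟨y, hy⟩ := h2
        rw [hd.s_q y x hy, ih y hy.2, hss y x hy]
      · rw [hd.e_q x (by simpa using h1) (by simpa using h2)]

theorem RowData.chain_r {r : P → ℕ} {q : P → P} (hd : RowData ω r q) {x y : P}
    (h : ReflTransGen (WCov ω) x y) : r x = r y ∧ q x = q y := by
  induction h with
  | refl => exact ⟨rfl, rfl⟩
  | tail _ h ih => exact ⟨ih.1.trans (hd.w_r _ _ h), ih.2.trans (hd.w_q _ _ h)⟩

/-- elements of the same row and the same component are in the same weak chain -/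
theorem RowData.row [Finite P] (hs : LocSkew ω) {r : P → ℕ} {q : P → P} (hd : RowData ω r q)
    (x y : P) (hr : r x = r y) (hq : q x = q y) :
    ReflTransGen (WCov ω) x y ∨ ReflTransGen (WCov ω) y x := by
  have key : ∀ n : ℕ, ∀ x y : P, r x = n → r y = n → q x = q y →
      (∀ z, ¬ WCov ω x z) → (∀ z, ¬ WCov ω y z) → x = y := by
    intro n
    induction n with
    | zero =>
      intro x y hx hy hq hx1 hy1
      have hx2 : ∀ z, ¬ SCov ω z x := by
        intro z hz
        have := hd.s_r z x hz
        omega
      have hy2 : ∀ z, ¬ SCov ω z y := by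
        intro z hz
        have := hd.s_r z y hz
        omega
      rw [← hd.e_q x hx1 hx2, ← hd.e_q y hy1 hy2, hq]
    | succ n ih =>
      intro x y hx hy hq hx1 hy1
      have hx2 : ∃ u, SCov ω u x := by
        by_contra hne
        have := hd.e_r x hx1 (by simpa using hne)
        omega
      have hy2 : ∃ v, SCov ω v y := by
        by_contra hne
        have := hd.e_r y hy1 (by simpa using hne)
        omega
      obtain ⟨u, hu⟩ := hx2
      obtain ⟨v, hv⟩ := hy2
      obtain ⟨u', hu1, hu2⟩ := exists_right ω u
      obtain ⟨v', hv1, hv2⟩ := exists_right ω v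
      have e1 := hd.s_r u x hu
      have e2 := hd.s_r v y hv
      have q1 := hd.s_q u x hu
      have q2 := hd.s_q v y hv
      have a1 := hd.chain_r hu1
      have a2 := hd.chain_r hv1
      have huv : u' = v' := by
        apply ih u' v' (by omega) (by omega) _ hu2 hv2
        rw [← a1.2, ← a2.2, ← q1, ← q2, hq]
      subst huv
      rcases wchain_total hs hu1 hv1 with h | h
      · obtain ⟨z, hz1, hz2⟩ := wchain_shift hs h hv
        have hzx := hs.s_up u x z hu hz1
        subst hzx
        rcases ReflTransGen.cases_head hz2 with h' | ⟨w, hw, _⟩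
        · exact h'
        · exact absurd hw (hx1 w)
      · obtain ⟨z, hz1, hz2⟩ := wchain_shift hs h hu
        have hzy := hs.s_up v y z hv hz1
        subst hzy
        rcases ReflTransGen.cases_head hz2 with h' | ⟨w, hw, _⟩
        · exact h'.symm
        · exact absurd hw (hy1 w)
  obtain ⟨x', hx1, hx2⟩ := exists_right ω x
  obtain ⟨y', hy1, hy2⟩ := exists_right ω y
  have a1 := hd.chain_r hx1
  have a2 := hd.chain_r hy1
  have hxy : x' = y' := key (r x) x' y' a1.1.symm (by rw [← a2.1, hr])
    (by rw [← a1.2, ← a2.2, hq]) hx2 hy2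
  subst hxy
  exact wchain_total hs hx1 hy1

/-- existence of the South neighbour -/
theorem RowData.exists_south [Finite P] (hs : LocSkew ω) {r : P → ℕ} {q : P → P}
    (hd : RowData ω r q) (c : P → ℕ) (hc1 : ∀ x y, WCov ω x y → c y = c x + 1)
    (hc2 : ∀ x y, SCov ω x y → c x = c y) (x y : P) (hq : q x = q y) (hr : r x < r y)
    (hc : c x ≤ c y) : ∃ z, SCov ω x z := by
  have hchain : ∀ a b : P, ReflTransGen (WCov ω) a b → c a ≤ c b ∧ (c a = c b → a = b) := by
    intro a b h
    induction h with
    | refl => exact ⟨le_rfl, fun _ => rfl⟩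
    | tail _ h ih =>
      have := hc1 _ _ h
      refine ⟨by omega, fun h' => ?_⟩
      omega
  have key : ∀ n : ℕ, ∀ y : P, r y = r x + n + 1 → q x = q y → c x ≤ c y → ∃ z, SCov ω x z := by
    intro n
    induction n with
    | zero =>
      intro y hr hq hc
      obtain ⟨y', hy1, hy2⟩ := exists_right ω y
      have a1 := hd.chain_r hy1
      have b1 := hchain _ _ hy1
      have hN : ∃ u, SCov ω u y' := by
        by_contra hne
        have := hd.e_r y' hy2 (by simpa using hne)
        omega
      obtain ⟨u, hu⟩ := hN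
      have e1 := hd.s_r u y' hu
      have e2 := hd.s_q u y' hu
      have e3 := hc2 u y' hu
      rcases hd.row hs x u (by omega) (by rw [hq, a1.2, e2]) with h | h
      · obtain ⟨z, hz, _⟩ := wchain_shift hs h hu
        exact ⟨z, hz⟩
      · have b2 := hchain _ _ h
        have : u = x := b2.2 (by omega)
        subst this
        exact ⟨y', hu⟩
    | succ n ih =>
      intro y hr hq hc
      obtain ⟨y', hy1, hy2⟩ := exists_right ω y
      have a1 := hd.chain_r hy1
      have b1 := hchain _ _ hy1
      have hN : ∃ u, SCov ω u y' := by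
        by_contra hne
        have := hd.e_r y' hy2 (by simpa using hne)
        omega
      obtain ⟨u, hu⟩ := hN
      have e1 := hd.s_r u y' hu
      have e2 := hd.s_q u y' hu
      have e3 := hc2 u y' hu
      exact ih u (by omega) (by rw [hq, a1.2, e2]) (by omega)
  exact key (r y - r x - 1) y (by omega) hq hc

end

end Pool.Agent.SPE
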