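import Mathlib
import Pool.Agent.Lib_helper92.SPE.Rows

/-!
# Locally skew labelled posets are skew diagrams (helper92; MP_49bc13_co)

`emb`: a finite partially ordered set with a labelling that is locally skew is a skew shape, in
exactly the form of the right hand side of the frozen statement S08577.
-/

set_option autoImplicit false

namespace Pool.Agent.SPE

open Relation

section
variable {P L : Type*} [PartialOrder P] [LinearOrder L] {ω : P → L}

/-- transposed labelling -/
def tr (ω : P → L) : P → Lᵒᵈ := fun x => OrderDual.toDual (ω x)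

theorem scov_tr {x y : P} : SCov (tr ω) x y ↔ WCov ω x y := Iff.rfl
theorem wcov_tr {x y : P} : WCov (tr ω) x y ↔ SCov ω x y := Iff.rfl

theorem LocSkew.tr (hs : LocSkew ω) : LocSkew (tr ω) where
  s_down := fun x x' y h h' => hs.w_down x x' y h h'
  w_down := fun x x' y h h' => hs.s_down x x' y h h'
  s_up := fun x y y' h h' => hs.w_up x y y' h h'
  w_up := fun x y y' h h' => hs.s_up x y y' h h'
  ws := fun x b y h h' => hs.sw x b y h h'
  sw := fun x b y h h' => hs.ws x b y h h'

/-- Coordinates of a locally skew labelled poset: `r` row, `c` column, `q` component. -/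
structure Coord (ω : P → L) (r c : P → ℕ) (q : P → P) : Prop where
  w_r : ∀ x y, WCov ω x y → r x = r y
  w_c : ∀ x y, WCov ω x y → c y = c x + 1
  w_q : ∀ x y, WCov ω x y → q x = q y
  s_r : ∀ x y, SCov ω x y → r y = r x + 1
  s_c : ∀ x y, SCov ω x y → c x = c y
  s_q : ∀ x y, SCov ω x y → q x = q y
  row : ∀ x y, r x = r y → q x = q y →
    ReflTransGen (WCov ω) x y ∨ ReflTransGen (WCov ω) y x
  col : ∀ x y, c x = c y → q x = q y →
    ReflTransGen (SCov ω) x y ∨ ReflTransGen (SCov ω) y x
  south : ∀ x y, q x = q y → r x < r y → c x ≤ c y → ∃ z, SCov ω x z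
  east : ∀ x y, q x = q y → c x < c y → r x ≤ r y → ∃ z, WCov ω x z

theorem exists_coord [Finite P] (hs : LocSkew ω) : ∃ r c q, Coord ω r c q := by
  obtain ⟨r, q, hd⟩ := exists_rowData hs
  obtain ⟨c, q', hd'⟩ := exists_rowData hs.tr
  have hqq : ∀ x y, q x = q y → q' x = q' y := by
    intro x y h
    have h1 : q' (q x) = q' x := hd.const q' (fun a b hab => (hd'.s_q a b hab).symm)
      (fun a b hab => hd'.w_q a b hab) x
    have h2 : q' (q y) = q' y := hd.const q' (fun a b hab => (hd'.s_q a b hab).symm)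
      (fun a b hab => hd'.w_q a b hab) y
    rw [← h1, ← h2, h]
  refine ⟨r, c, q, ?_, ?_, ?_, ?_, ?_, ?_, ?_, ?_, ?_, ?_⟩
  · exact hd.w_r
  · exact fun x y h => hd'.s_r x y h
  · exact hd.w_q
  · exact hd.s_r
  · exact fun x y h => hd'.w_r x y h
  · exact fun x y h => (hd.s_q x y h).symm
  · exact fun x y h h' => hd.row hs x y h h'
  · exact fun x y h h' => hd'.row hs.tr x y h (hqq x y h')
  · intro x y hq hr hc
    exact hd.exists_south hs c (fun a b hab => hd'.s_r a b hab)
      (fun a b hab => hd'.w_r a b hab) x y hq hr hc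
  · intro x y hq hc hr
    exact hd'.exists_south hs.tr r (fun a b hab => hd.s_r a b hab)
      (fun a b hab => hd.w_r a b hab) x y (hqq x y hq) hc hr

variable {r c : P → ℕ} {q : P → P}

theorem Coord.wchain (hd : Coord ω r c q) {x y : P} (h : ReflTransGen (WCov ω) x y) :
    r x = r y ∧ q x = q y ∧ c x ≤ c y ∧ (c x = c y → x = y) ∧ (x ≤ y) := by
  induction h with
  | refl => exact ⟨rfl, rfl, le_rfl, fun _ => rfl, le_rfl⟩
  | tail _ h ih =>
    obtain ⟨i1, i2, i3, _, i5⟩ := ih
    have := hd.w_c _ _ h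
    refine ⟨i1.trans (hd.w_r _ _ h), i2.trans (hd.w_q _ _ h), by omega, fun h' => ?_,
      i5.trans h.lt.le⟩
    omega

theorem Coord.schain (hd : Coord ω r c q) {x y : P} (h : ReflTransGen (SCov ω) x y) :
    c x = c y ∧ q x = q y ∧ r x ≤ r y ∧ (r x = r y → x = y) ∧ (x ≤ y) ∧
      (x = y ∨ ω y < ω x) := by
  induction h with
  | refl => exact ⟨rfl, rfl, le_rfl, fun _ => rfl, le_rfl, Or.inl rfl⟩
  | tail _ h ih =>
    obtain ⟨i1, i2, i3, _, i5, i6⟩ := ih
    have := hd.s_r _ _ h
    refine ⟨i1.trans (hd.s_c _ _ h), i2.trans (hd.s_q _ _ h), by omega, fun h' => ?_,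
      i5.trans h.lt.le, ?_⟩
    · omega
    · right
      rcases i6 with rfl | i6
      · exact h.2
      · exact h.2.trans i6

theorem Coord.inj (hd : Coord ω r c q) (x y : P) (hr : r x = r y) (hc : c x = c y)
    (hq : q x = q y) : x = y := by
  rcases hd.row x y hr hq with h | h
  · exact (hd.wchain h).2.2.2.1 hc
  · exact ((hd.wchain h).2.2.2.1 hc.symm).symm

theorem Coord.convex (hd : Coord ω r c q) (x y : P) (hq : q x = q y) (i j : ℕ)
    (h1 : r x ≤ i) (h2 : i ≤ r y) (h3 : c x ≤ j) (h4 : j ≤ c y) :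
    ∃ z, q z = q x ∧ r z = i ∧ c z = j := by
  have s1 : ∀ k : ℕ, r x + k ≤ r y → ∃ z, q z = q x ∧ r z = r x + k ∧ c z = c x := by
    intro k
    induction k with
    | zero => exact fun _ => ⟨x, rfl, rfl, rfl⟩
    | succ k ih =>
      intro hk
      obtain ⟨z, hz1, hz2, hz3⟩ := ih (by omega)
      obtain ⟨w, hw⟩ := hd.south z y (hz1.trans hq) (by omega) (by omega)
      refine ⟨w, ?_, ?_, ?_⟩
      · rw [← hd.s_q z w hw, hz1]
      · rw [hd.s_r z w hw, hz2]; ring
      · rw [← hd.s_c z w hw, hz3]
  obtain ⟨z, hz1, hz2, hz3⟩ := s1 (i - r x) (by omega)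
  have s2 : ∀ k : ℕ, c x + k ≤ c y → ∃ w, q w = q x ∧ r w = i ∧ c w = c x + k := by
    intro k
    induction k with
    | zero => exact fun _ => ⟨z, hz1, by omega, by omega⟩
    | succ k ih =>
      intro hk
      obtain ⟨w, hw1, hw2, hw3⟩ := ih (by omega)
      obtain ⟨v, hv⟩ := hd.east w y (hw1.trans hq) (by omega) (by omega)
      refine ⟨v, ?_, ?_, ?_⟩
      · rw [← hd.w_q w v hv, hw1]
      · rw [← hd.w_r w v hv, hw2]
      · rw [hd.w_c w v hv, hw3]; ring
  obtain ⟨w, hw1, hw2, hw3⟩ := s2 (j - c x) (by omega)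
  exact ⟨w, hw1, hw2, by omega⟩

end

section
variable {P L : Type*} [PartialOrder P] [LinearOrder L] {ω : P → L}

/-- the lexicographic induction along a saturated chain -/
theorem chain_lex [Finite P] (hinj : Function.Injective ω) (f : P → ℕ)
    (hw : ∀ x y, WCov ω x y → f x ≤ f y) (hss : ∀ x y, SCov ω x y → f x < f y)
    (s t : P) (h : s < t) : f s < f t ∨ (f s = f t ∧ ω s < ω t) := by
  classical
  have := Fintype.ofFinite P
  let _ : LocallyFiniteOrder P := Fintype.toLocallyFiniteOrder
  have h' : TransGen (· ⋖ ·) s t := lt_iff_transGen_covBy.mp h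
  have step : ∀ x y : P, x ⋖ y → f x < f y ∨ (f x = f y ∧ ω x < ω y) := by
    intro x y hxy
    rcases lt_or_gt_of_ne (fun he => hxy.lt.ne (hinj he)) with h1 | h1
    · rcases (hw x y ⟨hxy, h1⟩).lt_or_eq with h2 | h2
      · exact Or.inl h2
      · exact Or.inr ⟨h2, h1⟩
    · exact Or.inl (hss x y ⟨hxy, h1⟩)
  clear h
  induction h' with
  | single h => exact step _ _ h
  | tail h1 h2 ih =>
    rcases ih with h3 | ⟨h3, h4⟩
    · rcases step _ _ h2 with h5 | ⟨h5, _⟩
      · exact Or.inl (h3.trans h5)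
      · exact Or.inl (h5 ▸ h3)
    · rcases step _ _ h2 with h5 | ⟨h5, h6⟩
      · exact Or.inl (h3 ▸ h5)
      · exact Or.inr ⟨h3.trans h5, h4.trans h6⟩

end

/-- EMB in an abstract form: an injective position function with order convex image. -/
theorem emb_aux {P : Type} [Fintype P] (pos : P → ℕ × ℕ) (hinj : Function.Injective pos)
    (hconv : ∀ x y : P, ∀ p : ℕ × ℕ, pos x ≤ p → p ≤ pos y → ∃ z, pos z = p) :
    ∃ (lam mu : YoungDiagram) (e : P ≃ ↥(lam.cells \ mu.cells)), mu ≤ lam ∧
      ∀ x : P, (e x).1 = pos x := by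
  classical
  let D : Finset (ℕ × ℕ) := Finset.univ.image pos
  let lamc : Finset (ℕ × ℕ) := D.biUnion (fun d => Finset.Iic d)
  have hlam : ∀ p, p ∈ lamc ↔ ∃ x, p ≤ pos x := by
    intro p
    simp [lamc, D]
  have hD : ∀ p, p ∈ D ↔ ∃ x, pos x = p := by
    intro p
    simp [D]
  have hlamL : IsLowerSet (lamc : Set (ℕ × ℕ)) := by
    intro a b hab ha
    rw [Finset.mem_coe, hlam] at ha ⊢
    obtain ⟨x, hx⟩ := ha
    exact ⟨x, hab.trans hx⟩
  have hmuL : IsLowerSet ((lamc \ D : Finset (ℕ × ℕ)) : Set (ℕ × ℕ)) := by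
    intro a b hab ha
    rw [Finset.mem_coe, Finset.mem_sdiff] at ha ⊢
    refine ⟨hlamL hab ha.1, fun hb => ha.2 ?_⟩
    obtain ⟨x, hx⟩ := (hD b).mp hb
    obtain ⟨y, hy⟩ := (hlam a).mp ha.1
    exact (hD a).mpr (hconv x y a (hx ▸ hab) hy)
  let lam : YoungDiagram := ⟨lamc, hlamL⟩
  let mu : YoungDiagram := ⟨lamc \ D, hmuL⟩
  have hcells : ∀ x : P, pos x ∈ lam.cells \ mu.cells := by
    intro x
    simp only [lam, mu, Finset.mem_sdiff, not_and, not_not]
    exact ⟨(hlam _).mpr ⟨x, le_rfl⟩, fun _ => (hD _).mpr ⟨x, rfl⟩⟩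
  let e0 : P → ↥(lam.cells \ mu.cells) := fun x => ⟨pos x, hcells x⟩
  have he0 : Function.Bijective e0 := by
    constructor
    · intro x y hxy
      exact hinj (congrArg Subtype.val hxy)
    · rintro ⟨p, hp⟩
      simp only [lam, mu, Finset.mem_sdiff, not_and, not_not] at hp
      obtain ⟨x, hx⟩ := (hD p).mp (hp.2 hp.1)
      exact ⟨x, Subtype.ext hx⟩
  refine ⟨lam, mu, Equiv.ofBijective e0 he0, ?_, fun x => rfl⟩
  intro p hp
  exact (Finset.mem_sdiff.mp hp).1

/-- EMB, general linear order of labels with an injective rank. -/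
theorem emb_gen {P : Type} [Fintype P] [PartialOrder P] (ω : P → ℕ)
    (hinj : Function.Injective ω) (hs : LocSkew ω) :
    ∃ (lam mu : YoungDiagram) (e : P ≃ ↥(lam.cells \ mu.cells)), mu ≤ lam ∧
        ∀ f : P → ℕ,
          ((∀ s t : P, s < t → f s ≤ f t) ∧
            (∀ s t : P, s < t → ω t < ω s → f s < f t)) ↔
          ((∀ s t : P, (e s).1.1 = (e t).1.1 → (e s).1.2 < (e t).1.2 → f s ≤ f t) ∧
            (∀ s t : P, (e s).1.2 = (e t).1.2 → (e s).1.1 < (e t).1.1 → f s < f t)) := by
  classical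
  obtain ⟨r, c, q, hd⟩ := exists_coord hs
  -- bounds
  obtain ⟨B, hB⟩ : ∃ B : ℕ, ∀ x, r x < B ∧ c x < B := by
    refine ⟨Finset.univ.sup r + Finset.univ.sup c + 1, fun x => ?_⟩
    have h1 : r x ≤ Finset.univ.sup r := Finset.le_sup (Finset.mem_univ x)
    have h2 : c x ≤ Finset.univ.sup c := Finset.le_sup (Finset.mem_univ x)
    omega
  obtain ⟨m, hm⟩ : ∃ m : ℕ, ∀ x, ω (q x) ≤ m := by
    refine ⟨Finset.univ.sup (fun x => ω (q x)), fun x => ?_⟩
    exact Finset.le_sup (f := fun x => ω (q x)) (Finset.mem_univ x)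
  let R : P → ℕ := fun x => r x + (m - ω (q x)) * B
  let C : P → ℕ := fun x => c x + ω (q x) * B
  -- comparison of positions
  have hlt1 : ∀ x y : P, ω (q x) < ω (q y) → R y < R x ∧ C x < C y := by
    intro x y h
    have h1 : m - ω (q y) + 1 ≤ m - ω (q x) := by
      have := hm y
      omega
    have h2 : (m - ω (q y) + 1) * B ≤ (m - ω (q x)) * B := Nat.mul_le_mul_right _ h1
    have h3 : (ω (q x) + 1) * B ≤ ω (q y) * B := Nat.mul_le_mul_right _ h
    have h4 := hB x
    have h5 := hB y
    simp only [R, C]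
    constructor
    · nlinarith
    · nlinarith
  have hsame : ∀ x y : P, q x = q y → R x = r x + (m - ω (q y)) * B ∧
      C x = c x + ω (q y) * B := by
    intro x y h
    simp only [R, C, h, and_self]
  have hle : ∀ x y : P, R x ≤ R y → C x ≤ C y → q x = q y := by
    intro x y h1 h2
    rcases lt_trichotomy (ω (q x)) (ω (q y)) with h | h | h
    · have := (hlt1 x y h).1
      omega
    · exact hinj h
    · have := (hlt1 y x h).2
      omega
  have hRq : ∀ x y : P, R x = R y → q x = q y := by
    intro x y h1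
    rcases lt_trichotomy (ω (q x)) (ω (q y)) with h | h | h
    · have := (hlt1 x y h).1
      omega
    · exact hinj h
    · have := (hlt1 y x h).1
      omega
  have hCq : ∀ x y : P, C x = C y → q x = q y := by
    intro x y h1
    rcases lt_trichotomy (ω (q x)) (ω (q y)) with h | h | h
    · have := (hlt1 x y h).2
      omega
    · exact hinj h
    · have := (hlt1 y x h).2
      omega
  obtain ⟨lam, mu, e, hml, he⟩ := emb_aux (fun x => (R x, C x))
    (by
      intro x y hxy
      have h1 : R x = R y := congrArg Prod.fst hxy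
      have h2 : C x = C y := congrArg Prod.snd hxy
      have hq := hRq x y h1
      have h3 := hsame x y hq
      have h4 := hsame y y rfl
      exact hd.inj x y (by omega) (by omega) hq)
    (by
      rintro x y ⟨i, j⟩ h1 h2
      have h1a : R x ≤ i := h1.1
      have h1b : C x ≤ j := h1.2
      have h2a : i ≤ R y := h2.1
      have h2b : j ≤ C y := h2.2
      have hq := hle x y (h1a.trans h2a) (h1b.trans h2b)
      have h3 := hsame x y hq
      have h4 := hsame y y rfl
      obtain ⟨z, hz1, hz2, hz3⟩ := hd.convex x y hq (i - (m - ω (q y)) * B)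
        (j - ω (q y) * B) (by omega) (by omega) (by omega) (by omega)
      refine ⟨z, ?_⟩
      have h5 := hsame z y (hz1.trans hq)
      refine Prod.ext ?_ ?_
      · show R z = i
        omega
      · show C z = j
        omega)
  refine ⟨lam, mu, e, hml, fun f => ?_⟩
  have he1 : ∀ x, (e x).1.1 = R x := fun x => by rw [he x]
  have he2 : ∀ x, (e x).1.2 = C x := fun x => by rw [he x]
  simp only [he1, he2]
  constructor
  · rintro ⟨ha, hb⟩
    constructor
    · intro s t h1 h2
      have hq := hRq s t h1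
      have h3 := hsame s t hq
      have h4 := hsame t t rfl
      rcases hd.row s t (by omega) hq with h | h
      · have := (hd.wchain h).2.2.2.2
        rcases this.lt_or_eq with h5 | h5
        · exact ha s t h5
        · rw [h5]
      · have := (hd.wchain h).2.2.1
        omega
    · intro s t h1 h2
      have hq := hCq s t h1
      have h3 := hsame s t hq
      have h4 := hsame t t rfl
      rcases hd.col s t (by omega) hq with h | h
      · obtain ⟨_, _, _, _, h6, h7⟩ := hd.schain h
        rcases h7 with h7 | h7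
        · subst h7; omega
        · have hne : s ≠ t := fun h8 => by subst h8; omega
          exact hb s t (lt_of_le_of_ne h6 hne) h7
      · have := (hd.schain h).2.2.1
        omega
  · rintro ⟨ha, hb⟩
    have hw : ∀ x y, WCov ω x y → f x ≤ f y := by
      intro x y h
      have h1 := hsame x y (hd.w_q x y h)
      have h2 := hsame y y rfl
      have h3 := hd.w_r x y h
      have h4 := hd.w_c x y h
      exact ha x y (by omega) (by omega)
    have hss : ∀ x y, SCov ω x y → f x < f y := by
      intro x y h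
      have h1 := hsame x y (hd.s_q x y h)
      have h2 := hsame y y rfl
      have h3 := hd.s_r x y h
      have h4 := hd.s_c x y h
      exact hb x y (by omega) (by omega)
    constructor
    · intro s t hst
      rcases chain_lex hinj f hw hss s t hst with h | h
      · exact h.le
      · exact h.1.le
    · intro s t hst hlt
      rcases chain_lex hinj f hw hss s t hst with h | h
      · exact h
      · exact absurd h.2 (not_lt.mpr hlt.le)

/-- EMB in the exact form of S08577. -/
theorem emb {P : Type} [Fintype P] [PartialOrder P] (ω : P ≃ Fin (Fintype.card P))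
    (hs : LocSkew (fun p : P => ω p)) :
    ∃ (lam mu : YoungDiagram) (e : P ≃ ↥(lam.cells \ mu.cells)), mu ≤ lam ∧
        ∀ f : P → ℕ,
          ((∀ s t : P, s < t → f s ≤ f t) ∧
            (∀ s t : P, s < t → ω t < ω s → f s < f t)) ↔
          ((∀ s t : P, (e s).1.1 = (e t).1.1 → (e s).1.2 < (e t).1.2 → f s ≤ f t) ∧
            (∀ s t : P, (e s).1.2 = (e t).1.2 → (e s).1.1 < (e t).1.1 → f s < f t)) := by
  have hs' : LocSkew (fun p : P => ((ω p : Fin (Fintype.card P)) : ℕ)) :=
    { s_down := fun x x' y h h' => hs.s_down x x' y h h'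
      w_down := fun x x' y h h' => hs.w_down x x' y h h'
      s_up := fun x y y' h h' => hs.s_up x y y' h h'
      w_up := fun x y y' h h' => hs.w_up x y y' h h'
      ws := fun x b y h h' => hs.ws x b y h h'
      sw := fun x b y h h' => hs.sw x b y h h' }
  exact emb_gen (fun p : P => ((ω p : Fin (Fintype.card P)) : ℕ))
    (fun a b h => ω.injective (Fin.ext h)) hs'

end Pool.Agent.SPE
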