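import Pool.Agent.ST14.KapStmts

/-!
Module K4: reduction to a minimal counterexample (helper92).
-/

set_option autoImplicit false

namespace Pool.Agent.ST14

open scoped Classical

theorem k4_mem_idl {P : Type} [PartialOrder P] {Q I : Finset P} :
    I ∈ idl Q ↔ I ⊆ Q ∧ ∀ x ∈ Q, ∀ y ∈ I, x ≤ y → x ∈ I := by
  simp [idl]

/-- `kap` is invariant under order embeddings. -/
theorem kap_map {P P' : Type} [PartialOrder P] [PartialOrder P'] (φ : P' ↪o P) (ω : P → ℕ)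
    (w : List ℕ) : ∀ R : Finset P', kap (fun x => ω (φ x)) R w = kap ω (R.map φ.toEmbedding) w := by
  induction w with
  | nil =>
    intro R
    simp [kap, Finset.map_eq_empty]
  | cons a w ih =>
    intro R
    simp only [kap]
    refine Finset.sum_bij (fun I _ => I.map φ.toEmbedding) ?_ ?_ ?_ ?_
    · intro I hI
      rw [Finset.mem_filter, k4_mem_idl] at hI ⊢
      obtain ⟨⟨h1, h2⟩, h3, h4⟩ := hI
      refine ⟨⟨Finset.map_subset_map.mpr h1, ?_⟩, by rw [Finset.card_map, h3], ?_⟩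
      · intro x hx y hy hxy
        obtain ⟨x', hx', rfl⟩ := Finset.mem_map.mp hx
        obtain ⟨y', hy', rfl⟩ := Finset.mem_map.mp hy
        exact Finset.mem_map_of_mem _ (h2 x' hx' y' hy' (φ.le_iff_le.mp hxy))
      · intro x hx y hy hxy
        obtain ⟨x', hx', rfl⟩ := Finset.mem_map.mp hx
        obtain ⟨y', hy', rfl⟩ := Finset.mem_map.mp hy
        exact h4 x' hx' y' hy' (φ.lt_iff_lt.mp hxy)
    · intro I _ J _ h
      exact Finset.map_injective _ h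
    · intro J hJ
      rw [Finset.mem_filter, k4_mem_idl] at hJ
      obtain ⟨⟨h1, h2⟩, h3, h4⟩ := hJ
      have hJ' : (R.filter (fun x => φ x ∈ J)).map φ.toEmbedding = J := by
        ext y
        rw [Finset.mem_map]
        constructor
        · rintro ⟨x, hx, rfl⟩
          exact (Finset.mem_filter.mp hx).2
        · intro hy
          obtain ⟨x, hx, rfl⟩ := Finset.mem_map.mp (h1 hy)
          exact ⟨x, Finset.mem_filter.mpr ⟨hx, hy⟩, rfl⟩
      refine ⟨R.filter (fun x => φ x ∈ J), ?_, hJ'⟩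
      rw [Finset.mem_filter, k4_mem_idl]
      refine ⟨⟨Finset.filter_subset _ _, ?_⟩, ?_, ?_⟩
      · intro x hx y hy hxy
        rw [Finset.mem_filter] at hy ⊢
        exact ⟨hx, h2 (φ x) (Finset.mem_map_of_mem _ hx) (φ y) hy.2 (φ.le_iff_le.mpr hxy)⟩
      · rw [← hJ', Finset.card_map] at h3
        exact h3
      · intro x hx y hy hxy
        exact h4 (φ x) (Finset.mem_filter.mp hx).2 (φ y) (Finset.mem_filter.mp hy).2
          (φ.lt_iff_lt.mpr hxy)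
    · intro I hI
      rw [ih, Finset.map_sdiff]

/-- the order embedding of a finite subset -/
def k4emb {P : Type} [PartialOrder P] (Q : Finset P) : {x : P // x ∈ Q} ↪o P where
  toFun x := x.1
  inj' := Subtype.val_injective
  map_rel_iff' := Iff.rfl

theorem k4_map_univ {P : Type} [PartialOrder P] (Q : Finset P) :
    (Finset.univ : Finset {x : P // x ∈ Q}).map (k4emb Q).toEmbedding = Q := by
  ext x
  rw [Finset.mem_map]
  constructor
  · rintro ⟨⟨y, hy⟩, _, rfl⟩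
    exact hy
  · intro hx
    exact ⟨⟨x, hx⟩, Finset.mem_univ _, rfl⟩

/-- `LocSkew` of the subtype gives `LocSkewOn`. -/
theorem locSkewOn_of_subtype {P : Type} [PartialOrder P] (ω : P → ℕ) (Q : Finset P) (hQ : Cvx Q)
    (h : LocSkew (fun x : {x : P // x ∈ Q} => ω x.1)) : LocSkewOn ω Q := by
  have hcov : ∀ (x y : P) (hx : x ∈ Q) (hy : y ∈ Q), x ⋖ y →
      (⟨x, hx⟩ : {x : P // x ∈ Q}) ⋖ ⟨y, hy⟩ := by
    intro x y hx hy hxy
    refine ⟨hxy.1, ?_⟩
    rintro ⟨z, hz⟩ h1 h2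
    exact hxy.2 h1 h2
  have hcov' : ∀ x y : {x : P // x ∈ Q}, x ⋖ y → x.1 ⋖ y.1 := by
    rintro ⟨x, hx⟩ ⟨y, hy⟩ hxy
    refine ⟨hxy.1, ?_⟩
    intro z h1 h2
    have hz : z ∈ Q := hQ x hx y hy z h1.le h2.le
    exact hxy.2 (c := ⟨z, hz⟩) h1 h2
  constructor
  · intro x hx x' hx' y hy h1 h2
    exact congrArg Subtype.val
      (h.w_lower ⟨x, hx⟩ ⟨x', hx'⟩ ⟨y, hy⟩ ⟨hcov x y hx hy h1.1, h1.2⟩ ⟨hcov x' y hx' hy h2.1, h2.2⟩)
  · intro x hx y hy y' hy' h1 h2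
    exact congrArg Subtype.val
      (h.w_upper ⟨x, hx⟩ ⟨y, hy⟩ ⟨y', hy'⟩ ⟨hcov x y hx hy h1.1, h1.2⟩ ⟨hcov x y' hx hy' h2.1, h2.2⟩)
  · intro x hx x' hx' y hy h1 h2
    exact congrArg Subtype.val
      (h.s_lower ⟨x, hx⟩ ⟨x', hx'⟩ ⟨y, hy⟩ ⟨hcov x y hx hy h1.1, h1.2⟩ ⟨hcov x' y hx' hy h2.1, h2.2⟩)
  · intro x hx y hy y' hy' h1 h2
    exact congrArg Subtype.val
      (h.s_upper ⟨x, hx⟩ ⟨y, hy⟩ ⟨y', hy'⟩ ⟨hcov x y hx hy h1.1, h1.2⟩ ⟨hcov x y' hx hy' h2.1, h2.2⟩)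
  · intro x hx b hb y hy h1 h2
    obtain ⟨c, hc1, hc2⟩ := h.ws ⟨x, hx⟩ ⟨b, hb⟩ ⟨y, hy⟩ ⟨hcov x b hx hb h1.1, h1.2⟩
      ⟨hcov b y hb hy h2.1, h2.2⟩
    exact ⟨c.1, ⟨hcov' _ _ hc1.1, hc1.2⟩, ⟨hcov' _ _ hc2.1, hc2.2⟩⟩
  · intro x hx b hb y hy h1 h2
    obtain ⟨c, hc1, hc2⟩ := h.sw ⟨x, hx⟩ ⟨b, hb⟩ ⟨y, hy⟩ ⟨hcov x b hx hb h1.1, h1.2⟩
      ⟨hcov b y hb hy h2.1, h2.2⟩
    exact ⟨c.1, ⟨hcov' _ _ hc1.1, hc1.2⟩, ⟨hcov' _ _ hc2.1, hc2.2⟩⟩

theorem K4 : K4_Stmt := by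
  intro hmini
  have key : ∀ n : ℕ, ∀ (P : Type) [Fintype P] [PartialOrder P] (ω : P → ℕ),
      Fintype.card P = n → Function.Injective ω → SymW ω Finset.univ → LocSkew ω := by
    intro n
    induction n using Nat.strong_induction_on with
    | _ n ih =>
      intro P _ _ ω hn hinj hsym
      refine hmini P ω ⟨hinj, hsym, ?_⟩
      intro Q hQ1 hQ2 hQ3
      refine locSkewOn_of_subtype ω Q hQ2 ?_
      have hcard : Fintype.card {x : P // x ∈ Q} < n := by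
        rw [Fintype.card_coe, ← hn]
        obtain ⟨x, hx⟩ : ∃ x, x ∉ Q := by
          by_contra hne
          push Not at hne
          exact hQ1 (Finset.eq_univ_iff_forall.mpr hne)
        exact Finset.card_lt_univ_of_notMem hx
      refine ih _ hcard {x : P // x ∈ Q} (fun x => ω x.1) rfl ?_ ?_
      · intro x y hxy
        exact Subtype.ext (hinj hxy)
      · intro w w' hw
        have h1 := kap_map (k4emb Q) ω w Finset.univ
        have h2 := kap_map (k4emb Q) ω w' Finset.univ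
        rw [k4_map_univ] at h1 h2
        have h3 := hQ3 w w' hw
        exact h1.trans (h3.trans h2.symm)
  intro P _ _ ω hinj hsym
  exact key _ P ω rfl hinj hsym

end Pool.Agent.ST14
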