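import Pool.Agent.ST14.KapStmts

/-!
Modules K5b, K5d: reversal (helper92).
-/

set_option autoImplicit false

namespace Pool.Agent.ST14

open scoped Classical

/-- the same set in the order dual -/
def k5D {P : Type} (Q : Finset P) : Finset Pᵒᵈ := Q.map OrderDual.toDual.toEmbedding

theorem k5_mem {P : Type} {Q : Finset P} {x : Pᵒᵈ} : x ∈ k5D Q ↔ OrderDual.ofDual x ∈ Q := by
  unfold k5D
  rw [Finset.mem_map]
  constructor
  · rintro ⟨y, hy, rfl⟩
    exact hy
  · intro hx
    exact ⟨OrderDual.ofDual x, hx, rfl⟩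

theorem k5_mem_idl {P : Type} [PartialOrder P] {Q I : Finset P} :
    I ∈ idl Q ↔ I ⊆ Q ∧ ∀ x ∈ Q, ∀ y ∈ I, x ≤ y → x ∈ I := by
  simp [idl]

theorem k5_sdiff {P : Type} (Q R : Finset P) : k5D (Q \ R) = k5D Q \ k5D R := by
  ext x
  simp only [k5_mem, Finset.mem_sdiff]

theorem k5_card {P : Type} (Q : Finset P) : (k5D Q).card = Q.card := Finset.card_map _

theorem k5_eq_empty {P : Type} (Q : Finset P) : k5D Q = ∅ ↔ Q = ∅ := Finset.map_eq_empty

theorem k5_surj {P : Type} (R : Finset Pᵒᵈ) : ∃ Q : Finset P, k5D Q = R :=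
  ⟨R.map OrderDual.ofDual.toEmbedding, by
    ext x
    rw [k5_mem, Finset.mem_map]
    constructor
    · rintro ⟨y, hy, hxy⟩
      have : y = x := OrderDual.ofDual.injective hxy
      exact this ▸ hy
    · intro hx
      exact ⟨x, hx, rfl⟩⟩

theorem k5_inj {P : Type} {Q R : Finset P} (h : k5D Q = k5D R) : Q = R :=
  Finset.map_injective _ h

section
variable {P : Type} [Fintype P] [PartialOrder P]

theorem rv_lt (ω : P → ℕ) (x y : Pᵒᵈ) :
    rv ω x < rv ω y ↔ ω (OrderDual.ofDual y) < ω (OrderDual.ofDual x) := by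
  have h1 : ω (OrderDual.ofDual x) ≤ Finset.univ.sup ω := Finset.le_sup (Finset.mem_univ _)
  have h2 : ω (OrderDual.ofDual y) ≤ Finset.univ.sup ω := Finset.le_sup (Finset.mem_univ _)
  unfold rv
  omega

theorem k5_weakOnly (ω : P → ℕ) (F : Finset P) :
    WeakOnly (rv ω) (k5D F) ↔ WeakOnly ω F := by
  constructor
  · intro h x hx y hy hxy
    have := h (OrderDual.toDual y) (k5_mem.mpr hy) (OrderDual.toDual x) (k5_mem.mpr hx)
      (OrderDual.toDual_lt_toDual.mpr hxy)
    exact (rv_lt ω _ _).mp this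
  · intro h x hx y hy hxy
    exact (rv_lt ω _ _).mpr (h _ (k5_mem.mp hy) _ (k5_mem.mp hx) (OrderDual.ofDual_lt_ofDual.mpr hxy))

theorem k5_single (ω : P → ℕ) (R : Finset P) (a : ℕ) :
    kap ω R [a] = if R.card = a ∧ WeakOnly ω R then 1 else 0 := by
  simp only [kap]
  rw [Finset.sum_ite, Finset.sum_const_zero, add_zero, Finset.sum_const, smul_eq_mul, mul_one]
  by_cases h : R.card = a ∧ WeakOnly ω R
  · rw [if_pos h]
    rw [Finset.card_eq_one]
    refine ⟨R, ?_⟩
    ext I
    simp only [Finset.mem_filter, Finset.mem_singleton, k5_mem_idl, Finset.sdiff_eq_empty_iff_subset]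
    constructor
    · rintro ⟨⟨⟨h1, _⟩, _⟩, h2⟩
      exact Finset.Subset.antisymm h1 h2
    · rintro rfl
      exact ⟨⟨⟨Finset.Subset.refl _, fun x hx _ _ _ => hx⟩, h⟩, Finset.Subset.refl _⟩
  · rw [if_neg h, Finset.card_eq_zero, Finset.filter_eq_empty_iff]
    intro I hI hI2
    rw [Finset.mem_filter, k5_mem_idl] at hI
    obtain ⟨⟨h1, _⟩, h3⟩ := hI
    rw [Finset.sdiff_eq_empty_iff_subset] at hI2
    have : I = R := Finset.Subset.antisymm h1 hI2
    subst this
    exact h h3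

/-- the reversal formula -/
theorem kap_rv (h1 : K1_Stmt) (ω : P → ℕ) (w : List ℕ) :
    ∀ Q : Finset P, kap (rv ω) (k5D Q) w = kap ω Q w.reverse := by
  induction w with
  | nil =>
    intro Q
    simp only [kap, List.reverse_nil, k5_eq_empty]
  | cons a w ih =>
    intro Q
    rw [List.reverse_cons, h1 P ω Q w.reverse [a]]
    have h2 : ∀ I : Finset P, kap ω I w.reverse * kap ω (Q \ I) [a]
        = if (Q \ I).card = a ∧ WeakOnly ω (Q \ I) then kap ω I w.reverse else 0 := by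
      intro I
      rw [k5_single]
      split_ifs <;> simp
    rw [Finset.sum_congr rfl (fun I _ => h2 I), ← Finset.sum_filter]
    simp only [kap]
    symm
    refine Finset.sum_bij (fun I _ => k5D (Q \ I)) ?_ ?_ ?_ ?_
    · intro I hI
      rw [Finset.mem_filter, k5_mem_idl] at hI ⊢
      obtain ⟨⟨i1, i2⟩, i3, i4⟩ := hI
      refine ⟨⟨?_, ?_⟩, by rw [k5_card, i3], (k5_weakOnly ω _).mpr i4⟩
      · intro x hx
        rw [k5_mem] at hx ⊢
        exact (Finset.mem_sdiff.mp hx).1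
      · intro x hx y hy hxy
        rw [k5_mem] at hx hy ⊢
        rw [Finset.mem_sdiff] at hy ⊢
        refine ⟨hx, fun hxI => hy.2 ?_⟩
        exact i2 _ hy.1 _ hxI (OrderDual.ofDual_le_ofDual.mpr hxy)
    · intro I hI J hJ hIJ
      rw [Finset.mem_filter, k5_mem_idl] at hI hJ
      have h3 := k5_inj hIJ
      have h4 : Q \ (Q \ I) = Q \ (Q \ J) := by rw [h3]
      rwa [Finset.sdiff_sdiff_eq_self hI.1.1, Finset.sdiff_sdiff_eq_self hJ.1.1] at h4
    · intro F' hF'
      obtain ⟨F, rfl⟩ := k5_surj F'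
      rw [Finset.mem_filter, k5_mem_idl] at hF'
      obtain ⟨⟨i1, i2⟩, i3, i4⟩ := hF'
      have hFQ : F ⊆ Q := by
        intro x hx
        have h5 : OrderDual.toDual x ∈ k5D F := k5_mem.mpr hx
        exact k5_mem.mp (i1 h5)
      refine ⟨Q \ F, ?_, by rw [Finset.sdiff_sdiff_eq_self hFQ]⟩
      rw [Finset.mem_filter, k5_mem_idl, Finset.sdiff_sdiff_eq_self hFQ]
      refine ⟨⟨Finset.sdiff_subset, ?_⟩, by rw [← i3, k5_card], (k5_weakOnly ω F).mp i4⟩
      intro x hx y hy hxy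
      rw [Finset.mem_sdiff] at hy ⊢
      refine ⟨hx, fun hxF => hy.2 ?_⟩
      have := i2 (OrderDual.toDual y) (k5_mem.mpr hy.1) (OrderDual.toDual x) (k5_mem.mpr hxF)
        (OrderDual.toDual_le_toDual.mpr hxy)
      exact k5_mem.mp this
    · intro I hI
      rw [Finset.mem_filter, k5_mem_idl] at hI
      rw [← ih I]
      congr 1
      ext x
      have h6 := @hI.1.1 (OrderDual.ofDual x)
      simp only [Finset.mem_sdiff, k5_mem]
      tauto

theorem k5_sym_iff (h1 : K1_Stmt) (ω : P → ℕ) (Q : Finset P) :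
    SymW (rv ω) (k5D Q) ↔ SymW ω Q := by
  constructor
  · intro h w w' hw
    have h2 := h w.reverse w'.reverse
      ((List.reverse_perm w).trans (hw.trans (List.reverse_perm w').symm))
    rw [kap_rv h1, kap_rv h1, List.reverse_reverse, List.reverse_reverse] at h2
    exact h2
  · intro h w w' hw
    rw [kap_rv h1, kap_rv h1]
    exact h _ _ ((List.reverse_perm w).trans (hw.trans (List.reverse_perm w').symm))

theorem k5_covBy {x y : Pᵒᵈ} : x ⋖ y ↔ OrderDual.ofDual y ⋖ OrderDual.ofDual x :=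
  toDual_covBy_toDual_iff (a := OrderDual.ofDual y) (b := OrderDual.ofDual x)

theorem k5_wcov (ω : P → ℕ) (x y : Pᵒᵈ) :
    WCov (rv ω) x y ↔ WCov ω (OrderDual.ofDual y) (OrderDual.ofDual x) := by
  unfold WCov
  rw [k5_covBy, rv_lt]

theorem k5_scov (ω : P → ℕ) (x y : Pᵒᵈ) :
    SCov (rv ω) x y ↔ SCov ω (OrderDual.ofDual y) (OrderDual.ofDual x) := by
  unfold SCov
  rw [k5_covBy, rv_lt]

end

theorem K5b (h1 : K1_Stmt) : K5b_Stmt := by
  intro P _ _ ω Q h
  exact (k5_sym_iff h1 ω Q).mpr h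

theorem K5d (h1 : K1_Stmt) : K5d_Stmt := by
  intro P _ _ ω hm
  refine ⟨?_, ?_, ?_⟩
  · intro x y hxy
    have hx : ω (OrderDual.ofDual x) ≤ Finset.univ.sup ω := Finset.le_sup (Finset.mem_univ _)
    have hy : ω (OrderDual.ofDual y) ≤ Finset.univ.sup ω := Finset.le_sup (Finset.mem_univ _)
    unfold rv at hxy
    have : ω (OrderDual.ofDual x) = ω (OrderDual.ofDual y) := by omega
    exact OrderDual.ofDual.injective (hm.inj this)
  · have h2 := (k5_sym_iff h1 ω Finset.univ).mpr hm.sym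
    have h3 : k5D (Finset.univ : Finset P) = Finset.univ := by
      ext x
      simp [k5_mem]
    rwa [h3] at h2
  · intro Q' hQ1 hQ2 hQ3
    obtain ⟨Q, rfl⟩ := k5_surj Q'
    have hl : LocSkewOn ω Q := by
      refine hm.min Q ?_ ?_ ((k5_sym_iff h1 ω Q).mp hQ3)
      · rintro rfl
        apply hQ1
        ext x
        simp [k5_mem]
      · intro x hx z hz y hxy hyz
        have := hQ2 (OrderDual.toDual z) (k5_mem.mpr hz) (OrderDual.toDual x) (k5_mem.mpr hx)
          (OrderDual.toDual y) (OrderDual.toDual_le_toDual.mpr hyz)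
          (OrderDual.toDual_le_toDual.mpr hxy)
        exact k5_mem.mp this
    constructor
    · intro x hx x' hx' y hy h h'
      rw [k5_mem] at hx hx' hy
      exact OrderDual.ofDual.injective
        (hl.w_upper _ hy _ hx _ hx' ((k5_wcov ω x y).mp h) ((k5_wcov ω x' y).mp h'))
    · intro x hx y hy y' hy' h h'
      rw [k5_mem] at hx hy hy'
      exact OrderDual.ofDual.injective
        (hl.w_lower _ hy _ hy' _ hx ((k5_wcov ω x y).mp h) ((k5_wcov ω x y').mp h'))
    · intro x hx x' hx' y hy h h'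
      rw [k5_mem] at hx hx' hy
      exact OrderDual.ofDual.injective
        (hl.s_upper _ hy _ hx _ hx' ((k5_scov ω x y).mp h) ((k5_scov ω x' y).mp h'))
    · intro x hx y hy y' hy' h h'
      rw [k5_mem] at hx hy hy'
      exact OrderDual.ofDual.injective
        (hl.s_lower _ hy _ hy' _ hx ((k5_scov ω x y).mp h) ((k5_scov ω x y').mp h'))
    · intro x hx b hb y hy h h'
      rw [k5_mem] at hx hb hy
      obtain ⟨c, hc1, hc2⟩ := hl.sw _ hy _ hb _ hx ((k5_scov ω b y).mp h')
        ((k5_wcov ω x b).mp h)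
      exact ⟨OrderDual.toDual c, (k5_scov ω x _).mpr hc2, (k5_wcov ω _ y).mpr hc1⟩
    · intro x hx b hb y hy h h'
      rw [k5_mem] at hx hb hy
      obtain ⟨c, hc1, hc2⟩ := hl.ws _ hy _ hb _ hx ((k5_wcov ω b y).mp h')
        ((k5_scov ω x b).mp h)
      exact ⟨OrderDual.toDual c, (k5_wcov ω x _).mpr hc2, (k5_scov ω _ y).mpr hc1⟩

end Pool.Agent.ST14
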